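import Mathlib
import Pool.Agent.H52.Piece

/-!
# The lattice packing-covering constant of `C(K)` is one for all compact metrizable `K`

More generally `γ*(C(K)) = 1` for every nonempty compact Hausdorff space `K` all of whose nonempty
closed subspaces `F` contain a nonempty relatively open subset homeomorphic to a product `Z × M`
with `Z` totally disconnected and `M` metrizable.  For metrizable `K` this hypothesis holds
trivially (`Z` a point and `M = F`), and so it does for zero-dimensional `K` (`M` a point).
-/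

namespace Pool.Agent.Results.MP_2e9bdd_an.LocallyProduct

open Topology TopologicalSpace

universe u

/-- `P` is `2`-separated: distinct points of `P` have distance at least two. -/
def IsTwoSeparated {X : Type*} [NormedAddCommGroup X] (P : Set X) : Prop :=
  ∀ p ∈ P, ∀ q ∈ P, p ≠ q → 2 ≤ ‖p - q‖

/-- `P` is `r`-dense: every point of `X` is within distance `r` of a point of `P`. -/
def IsRDense {X : Type*} [NormedAddCommGroup X] (r : ℝ) (P : Set X) : Prop :=
  ∀ x : X, ∃ p ∈ P, ‖x - p‖ ≤ r

/-- The lattice simultaneous packing and covering constant `γ*(X)`: the infimum of the `r > 0` for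
which `X` has a `2`-separated and `r`-dense additive subgroup. -/
noncomputable def gammaStar (X : Type*) [NormedAddCommGroup X] : ℝ :=
  sInf {r : ℝ | 0 < r ∧
    ∃ P : AddSubgroup X, IsTwoSeparated (P : Set X) ∧ IsRDense r (P : Set X)}

/-- Every nonempty closed subspace `F` of `K` has a nonempty relatively open subspace `U ∩ F` which
is homeomorphic to `Z × M` with `Z` totally disconnected and `M` metrizable. -/
def HereditarilyLocallyProduct (K : Type u) [TopologicalSpace K] : Prop :=
  ∀ F : Set K, IsClosed F → F.Nonempty →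
    ∃ U : Set K, IsOpen U ∧ (U ∩ F).Nonempty ∧
      ∃ (Z M : Type u) (_ : TopologicalSpace Z) (_ : TopologicalSpace M),
        TotallyDisconnectedSpace Z ∧ MetrizableSpace M ∧ Nonempty (↥(U ∩ F) ≃ₜ Z × M)

/-- Metrizable spaces satisfy the hypothesis. -/
theorem hereditarilyLocallyProduct_of_metrizable (K : Type u) [TopologicalSpace K]
    [MetrizableSpace K] : HereditarilyLocallyProduct K := by
  intro F _ hne
  refine ⟨Set.univ, isOpen_univ, by simpa using hne, PUnit, ↥(Set.univ ∩ F), inferInstance,
    inferInstance, inferInstance, inferInstance, ⟨(Homeomorph.punitProd _).symm⟩⟩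

/-- Totally disconnected spaces satisfy the hypothesis. -/
theorem hereditarilyLocallyProduct_of_totallyDisconnected (K : Type u) [TopologicalSpace K]
    [TotallyDisconnectedSpace K] : HereditarilyLocallyProduct K := by
  intro F _ hne
  refine ⟨Set.univ, isOpen_univ, by simpa using hne, ↥(Set.univ ∩ F), PUnit, inferInstance,
    inferInstance, inferInstance, inferInstance, ⟨(Homeomorph.prodPUnit _).symm⟩⟩

/-- The lower bound: a `2`-separated `r`-dense subgroup of a nonzero real normed space has
`r ≥ 1`. -/
theorem one_le_of_separated_dense {X : Type*} [NormedAddCommGroup X] [NormedSpace ℝ X]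
    [Nontrivial X] {r : ℝ} {P : AddSubgroup X} (hsep : IsTwoSeparated (P : Set X))
    (hdense : IsRDense r (P : Set X)) : 1 ≤ r := by
  by_contra hr
  push Not at hr
  -- a nonzero element of P
  obtain ⟨p, hpP, hp0⟩ : ∃ p ∈ P, p ≠ 0 := by
    obtain ⟨x, hx⟩ := NormedSpace.exists_lt_norm ℝ X 1
    obtain ⟨p, hp, hpx⟩ := hdense x
    refine ⟨p, hp, ?_⟩
    rintro rfl
    rw [sub_zero] at hpx
    linarith
  obtain ⟨N, hN⟩ := exists_nat_gt (‖p‖ / (2 - 2 * r))
  have hpos : 0 < 2 - 2 * r := by linarith
  have hNpos : (0 : ℝ) < N := lt_of_le_of_lt (div_nonneg (norm_nonneg p) hpos.le) hN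
  have hstep : ‖p‖ / N < 2 - 2 * r := by
    rw [div_lt_iff₀ hpos] at hN
    rw [div_lt_iff₀ hNpos]
    linarith
  have hind : ∀ i : ℕ, ∀ q ∈ P, ‖((i : ℝ) / N) • p - q‖ ≤ r → q = 0 := by
    intro i
    induction i with
    | zero =>
      intro q hq hqr
      by_contra hq0
      have h2 := hsep q hq 0 P.zero_mem hq0
      simp only [Nat.cast_zero, zero_div, zero_smul, zero_sub, norm_neg] at hqr
      rw [sub_zero] at h2
      linarith
    | succ i ih =>
      intro q hq hqr
      obtain ⟨q', hq', hq'r⟩ := hdense (((i : ℝ) / N) • p)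
      have hq'0 : q' = 0 := ih q' hq' hq'r
      by_contra hq0
      have h2 := hsep q hq 0 P.zero_mem hq0
      rw [sub_zero] at h2
      rw [hq'0, sub_zero] at hq'r
      have h3 : q = -((((i + 1 : ℕ) : ℝ) / N) • p - q) + (((i : ℝ) / N) • p + (1 / (N : ℝ)) • p) := by
        have : (((i + 1 : ℕ) : ℝ) / N) • p = ((i : ℝ) / N) • p + (1 / (N : ℝ)) • p := by
          rw [← add_smul]; congr 1; push_cast; ring
        rw [this]; abel
      have h4 : ‖q‖ ≤ r + (r + ‖p‖ / N) := by
        calc ‖q‖ = ‖-((((i + 1 : ℕ) : ℝ) / N) • p - q) +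
              (((i : ℝ) / N) • p + (1 / (N : ℝ)) • p)‖ := by rw [← h3]
          _ ≤ ‖-((((i + 1 : ℕ) : ℝ) / N) • p - q)‖ +
              ‖((i : ℝ) / N) • p + (1 / (N : ℝ)) • p‖ := norm_add_le _ _
          _ ≤ ‖-((((i + 1 : ℕ) : ℝ) / N) • p - q)‖ +
              (‖((i : ℝ) / N) • p‖ + ‖(1 / (N : ℝ)) • p‖) := by
                gcongr; exact norm_add_le _ _
          _ ≤ r + (r + ‖p‖ / N) := by
                rw [norm_neg]
                have : ‖(1 / (N : ℝ)) • p‖ = ‖p‖ / N := by
                  rw [norm_smul, Real.norm_eq_abs, abs_of_pos (by positivity)]; ring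
                rw [this]
                gcongr
      linarith
  refine hp0 (hind N p hpP ?_)
  rw [div_self hNpos.ne', one_smul, sub_self, norm_zero]
  by_contra hcon
  push Not at hcon
  obtain ⟨q, -, hq⟩ := hdense 0
  linarith [norm_nonneg ((0 : X) - q)]

/-- For every nonempty compact Hausdorff space `K` all of whose nonempty closed subspaces have a
nonempty relatively open subspace of the form (totally disconnected) `×` (metrizable), in
particular for every nonempty compact metrizable space `K`, one has `γ*(C(K)) = 1`. -/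
theorem result (K : Type u) [TopologicalSpace K] [CompactSpace K] [T2Space K] [Nonempty K]
    (hK : HereditarilyLocallyProduct K) : gammaStar C(K, ℝ) = 1 := by
  have hge : ∀ r ∈ {r : ℝ | 0 < r ∧ ∃ P : AddSubgroup C(K, ℝ),
      IsTwoSeparated (P : Set C(K, ℝ)) ∧ IsRDense r (P : Set C(K, ℝ))}, 1 ≤ r := by
    rintro r ⟨-, P, hP1, hP2⟩
    exact one_le_of_separated_dense hP1 hP2
  have hmem : ∀ r : ℝ, 1 < r → r ∈ {r : ℝ | 0 < r ∧ ∃ P : AddSubgroup C(K, ℝ),
      IsTwoSeparated (P : Set C(K, ℝ)) ∧ IsRDense r (P : Set C(K, ℝ))} := by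
    intro r hr
    obtain ⟨P, -, hP2, hP3⟩ := Pool.Agent.H52.exists_relGood_empty (K := K) (r := r) (by
      intro F hF hFne
      obtain ⟨U, hU, hUF, Z, M, _, _, _, _, ⟨φ⟩⟩ := hK F hF hFne
      exact Pool.Agent.H52.exists_piece hF hU hUF φ hr)
    refine ⟨by linarith, P, ?_, ?_⟩
    · intro p hp q hq hpq
      obtain ⟨x, hx⟩ := hP2 (p - q) (P.sub_mem hp hq) (sub_ne_zero.2 hpq)
      exact hx.trans (by simpa using (p - q).norm_coe_le_norm x)
    · intro g
      obtain ⟨p, hp, hpr⟩ := hP3 g (fun x hx => absurd hx (Set.notMem_empty x))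
      refine ⟨p, hp, ?_⟩
      rw [ContinuousMap.norm_le _ (by linarith)]
      intro x
      simpa using (hpr x).le
  refine le_antisymm ?_ ?_
  · refine le_of_forall_gt_imp_ge_of_dense fun r hr => ?_
    exact csInf_le ⟨1, hge⟩ (hmem r hr)
  · exact le_csInf ⟨2, hmem 2 (by norm_num)⟩ hge

/-- The metrizable case, the restricted form in which the problem is also posed. -/
theorem metrizable_case (K : Type u) [TopologicalSpace K] [CompactSpace K] [MetrizableSpace K]
    [Nonempty K] : gammaStar C(K, ℝ) = 1 :=
  result K (hereditarilyLocallyProduct_of_metrizable K)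

end Pool.Agent.Results.MP_2e9bdd_an.LocallyProduct
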